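import Pool.Agent.H242.GX.Stm

/-! GX-CONV (project GX of helper242): convexity of the level curves near a convex curve. -/

open Set Filter Topology Metric
open scoped ContDiff

namespace Pool.Agent.H164.GX.CONV

open Pool.Agent.H242.GX

/-- a direction in the kernel of the functional `L` -/
noncomputable def ker0 (L : ℂ →L[ℝ] ℝ) : ℂ := ⟨-(L Complex.I), L 1⟩

lemma app_eq (L : ℂ →L[ℝ] ℝ) (w : ℂ) : L w = w.re * L 1 + w.im * L Complex.I := by
  have h : w = w.re • (1 : ℂ) + w.im • Complex.I := by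
    apply Complex.ext <;> simp
  conv_lhs => rw [h]
  rw [map_add, map_smul, map_smul]; simp

lemma app_ker0 (L : ℂ →L[ℝ] ℝ) : L (ker0 L) = 0 := by
  rw [app_eq]; simp only [ker0]; ring

lemma ker0_ne (L : ℂ →L[ℝ] ℝ) (h : L ≠ 0) : ker0 L ≠ 0 := by
  intro h0
  apply h
  have h1 : L Complex.I = 0 := by
    have := congrArg Complex.re h0; simpa [ker0] using this
  have h2 : L 1 = 0 := by
    have := congrArg Complex.im h0; simpa [ker0] using this
  exact ContinuousLinearMap.ext fun w => by rw [app_eq, h1, h2]; simp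

lemma pos_of (L : ℂ →L[ℝ] ℝ) (B : ℂ →L[ℝ] ℂ →L[ℝ] ℝ) (h : 0 < B (ker0 L) (ker0 L)) :
    L ≠ 0 ∧ ∀ w : ℂ, w ≠ 0 → L w = 0 → 0 < B w w := by
  have hk : ker0 L ≠ 0 := by
    intro h0; rw [h0] at h; simp at h
  refine ⟨?_, ?_⟩
  · intro h0
    apply hk
    rw [h0]; apply Complex.ext <;> simp [ker0]
  · intro w hw hL
    rw [app_eq] at hL
    set a := L 1 with ha
    set b := L Complex.I with hb
    have hab : 0 < a ^ 2 + b ^ 2 := by
      by_contra hcon
      have h1 : a = 0 := by nlinarith [sq_nonneg a, sq_nonneg b]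
      have h2 : b = 0 := by nlinarith [sq_nonneg a, sq_nonneg b]
      apply hk
      apply Complex.ext
      · simp only [ker0, Complex.zero_re]; rw [← hb, h2]; simp
      · simp only [ker0, Complex.zero_im]; rw [← ha, h1]
    set l := (a * w.im - b * w.re) / (a ^ 2 + b ^ 2) with hl
    have hw' : w = l • ker0 L := by
      apply Complex.ext
      · simp only [ker0, Complex.real_smul, Complex.mul_re, Complex.ofReal_re, Complex.ofReal_im]
        rw [hl, ← hb, ← ha]
        field_simp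
        linear_combination a * hL
      · simp only [ker0, Complex.real_smul, Complex.mul_im, Complex.ofReal_re, Complex.ofReal_im]
        rw [hl, ← hb, ← ha]
        field_simp
        linear_combination b * hL
    have hl0 : l ≠ 0 := by
      intro h0; rw [h0] at hw'; apply hw; rw [hw']; simp
    rw [hw']
    simp only [map_smul, _root_.smul_apply, smul_eq_mul]
    have : l * (l * (B (ker0 L)) (ker0 L)) = l ^ 2 * B (ker0 L) (ker0 L) := by ring
    rw [this]
    positivity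

/-- no interior maximum along a line in a direction where the second derivative is positive -/
lemma no_max (V : Set ℂ) (Y : ℂ → ℝ) (hV : IsOpen V) (hY : ContDiffOn ℝ ∞ Y V) (x w : ℂ) (u : ℝ)
    (hu : x + u • w ∈ V) (hm : IsLocalMax (fun t : ℝ => Y (x + t • w)) u)
    (hp : fderiv ℝ Y (x + u • w) w = 0 → 0 < fderiv ℝ (fderiv ℝ Y) (x + u • w) w w) : False := by
  set g : ℝ → ℂ := fun t => x + t • w with hg
  have hgd : ∀ t, HasDerivAt g w t := by
    intro t
    have h1 : HasDerivAt (fun t : ℝ => t • w) ((1 : ℝ) • w) t := (hasDerivAt_id t).smul_const w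
    simpa [hg] using h1.const_add x
  have hgc : Continuous g := by
    rw [hg]; fun_prop
  have hYd : ∀ z ∈ V, HasFDerivAt Y (fderiv ℝ Y z) z := fun z hz =>
    ((hY.contDiffAt (hV.mem_nhds hz)).differentiableAt (by simp)).hasFDerivAt
  have hY2 : ContDiffOn ℝ ∞ (fderiv ℝ Y) V := hY.fderiv_of_isOpen hV (by simp)
  have hY2d : ∀ z ∈ V, HasFDerivAt (fderiv ℝ Y) (fderiv ℝ (fderiv ℝ Y) z) z := fun z hz =>
    ((hY2.contDiffAt (hV.mem_nhds hz)).differentiableAt (by simp)).hasFDerivAt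
  have hev : ∀ᶠ t in 𝓝 u, g t ∈ V := hgc.continuousAt.eventually (hV.mem_nhds hu)
  have hf1 : ∀ t, g t ∈ V → HasDerivAt (fun t => Y (g t)) (fderiv ℝ Y (g t) w) t := by
    intro t ht
    exact (hYd _ ht).comp_hasDerivAt t (hgd t)
  have hder : deriv (fun t => Y (g t)) =ᶠ[𝓝 u] fun t => fderiv ℝ Y (g t) w := by
    filter_upwards [hev] with t ht
    exact (hf1 t ht).deriv
  have hd0 : fderiv ℝ Y (g u) w = 0 := by
    have := hm.deriv_eq_zero
    rw [← (hf1 u hu).deriv]; exact this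
  have hpos := hp hd0
  have hdd : deriv (deriv (fun t => Y (g t))) u = fderiv ℝ (fderiv ℝ Y) (g u) w w := by
    rw [hder.deriv_eq]
    have h1 : HasDerivAt (fun t => fderiv ℝ Y (g t)) (fderiv ℝ (fderiv ℝ Y) (g u) w) u :=
      (hY2d _ hu).comp_hasDerivAt u (hgd u)
    exact ((h1.clm_apply (hasDerivAt_const u w)).deriv).trans (by simp)
  have hmin : IsLocalMin (fun t => Y (g t)) u := by
    apply isLocalMin_of_deriv_deriv_pos
    · rw [hdd]; exact hpos
    · rw [(hf1 u hu).deriv]; exact hd0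
    · exact (hf1 u hu).continuousAt
  have hconst : (fun t => Y (g t)) =ᶠ[𝓝 u] fun _ => Y (g u) := by
    filter_upwards [hm, hmin] with t h1 h2
    exact le_antisymm h1 h2
  have h3 : deriv (fun t => Y (g t)) =ᶠ[𝓝 u] fun _ => 0 := by
    have := hconst.deriv
    simpa using this
  have h4 : deriv (deriv (fun t => Y (g t))) u = 0 := by
    rw [h3.deriv_eq]; simp
  rw [hdd] at h4
  exact absurd h4 hpos.ne'

/-- The union of `K` and the part of the sublevel set outside. -/
def BB (K : Set ℂ) (Y : ℂ → ℝ) (δ c : ℝ) : Set ℂ :=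
  K ∪ {z | (z ∈ cthickening δ K ∧ z ∉ interior K) ∧ Y z ≤ c}

lemma bb_compact {K V : Set ℂ} {Y : ℂ → ℝ} {δ : ℝ} (hK : IsCompact K)
    (hN : cthickening δ K \ interior K ⊆ V) (hY : ContinuousOn Y V) (c : ℝ) :
    IsCompact (BB K Y δ c) := by
  apply hK.union
  have h1 : IsCompact (cthickening δ K \ interior K) :=
    hK.cthickening.diff isOpen_interior
  have h2 : IsClosed ((cthickening δ K \ interior K) ∩ Y ⁻¹' (Iic c)) :=
    (hY.mono hN).preimage_isClosed_of_isClosed h1.isClosed isClosed_Iic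
  exact h1.of_isClosed_subset h2 (fun z hz => hz.1)

lemma bb_convex {K V : Set ℂ} {Y : ℂ → ℝ} {δ c : ℝ} (hK : IsCompact K) (hKc : Convex ℝ K)
    (hV : IsOpen V) (hY : ContDiffOn ℝ ∞ Y V)
    (hδ : 0 ≤ δ) (hc : 0 ≤ c) (hfr : ∀ z ∈ frontier K, Y z = 0)
    (hN : cthickening δ K \ interior K ⊆ V)
    (hp : ∀ z ∈ cthickening δ K \ interior K, ∀ w : ℂ, w ≠ 0 → fderiv ℝ Y z w = 0 →
      0 < fderiv ℝ (fderiv ℝ Y) z w w) : Convex ℝ (BB K Y δ c) := by
  have hB := bb_compact (c := c) hK hN hY.continuousOn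
  have hKB : K ⊆ BB K Y δ c := subset_union_left
  have hBT : BB K Y δ c ⊆ cthickening δ K := by
    intro z hz
    rcases hz with hz | hz
    · exact self_subset_cthickening K hz
    · exact hz.1.1
  rw [convex_iff_segment_subset]
  intro x hx y hy
  rw [segment_eq_image']
  rintro _ ⟨t₀, ht₀, rfl⟩
  by_contra hcon
  simp only at hcon
  set w := y - x with hw
  set g : ℝ → ℂ := fun t => x + t • w with hg
  have hgc : Continuous g := by rw [hg]; fun_prop
  change ¬ g t₀ ∈ BB K Y δ c at hcon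
  have hg0 : g 0 = x := by simp [hg]
  have hg1 : g 1 = y := by simp [hg, hw]
  have hgT : ∀ t ∈ Icc (0 : ℝ) 1, g t ∈ cthickening δ K := by
    intro t ht
    have hcv := hKc.cthickening δ
    have := (convex_iff_segment_subset.1 hcv) (hBT hx) (hBT hy)
    apply this
    rw [segment_eq_image']
    exact ⟨t, ht, rfl⟩
  have hS : IsClosed {t : ℝ | g t ∈ BB K Y δ c} := hB.isClosed.preimage hgc
  -- left end
  have hL : IsCompact (Icc 0 t₀ ∩ {t : ℝ | g t ∈ BB K Y δ c}) := isCompact_Icc.inter_right hS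
  have hLn : (Icc 0 t₀ ∩ {t : ℝ | g t ∈ BB K Y δ c}).Nonempty :=
    ⟨0, ⟨le_rfl, ht₀.1⟩, by simpa [hg0] using hx⟩
  obtain ⟨s, hs, hsm⟩ := hL.exists_isGreatest hLn
  have hR : IsCompact (Icc t₀ 1 ∩ {t : ℝ | g t ∈ BB K Y δ c}) := isCompact_Icc.inter_right hS
  have hRn : (Icc t₀ 1 ∩ {t : ℝ | g t ∈ BB K Y δ c}).Nonempty :=
    ⟨1, ⟨ht₀.2, le_rfl⟩, by simpa [hg1] using hy⟩
  obtain ⟨r, hr, hrm⟩ := hR.exists_isLeast hRn
  have hst : s < t₀ := lt_of_le_of_ne hs.1.2 (fun h => hcon (h ▸ hs.2))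
  have hrt : t₀ < r := lt_of_le_of_ne hr.1.1 (fun h => hcon (h ▸ hr.2))
  have hout : ∀ u ∈ Ioo s r, g u ∉ BB K Y δ c := by
    intro u hu hmem
    rcases le_total u t₀ with h | h
    · exact absurd (hsm ⟨⟨hs.1.1.trans hu.1.le, h⟩, hmem⟩) (not_le.2 hu.1)
    · exact absurd (hrm ⟨⟨h, hu.2.le.trans hr.1.2⟩, hmem⟩) (not_le.2 hu.2)
  have hint : ∀ u ∈ Icc s r, g u ∉ interior K := by
    intro u hu hmem
    have hopen : IsOpen {t : ℝ | g t ∈ interior K} := isOpen_interior.preimage hgc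
    have hcl : u ∈ closure (Ioo s r) := by
      rw [closure_Ioo (ne_of_lt (hst.trans hrt))]; exact hu
    obtain ⟨u', hu'1, hu'2⟩ := (_root_.mem_closure_iff.1 hcl) _ hopen hmem
    exact hout u' hu'2 (hKB (interior_subset hu'1))
  have hmemN : ∀ u ∈ Icc s r, g u ∈ cthickening δ K \ interior K := fun u hu =>
    ⟨hgT u ⟨hs.1.1.trans hu.1, hu.2.trans hr.1.2⟩, hint u hu⟩
  have hfc : ContinuousOn (fun u => Y (g u)) (Icc s r) :=
    hY.continuousOn.comp hgc.continuousOn (fun u hu => hN (hmemN u hu))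
  have hle : ∀ u ∈ Icc s r, g u ∈ BB K Y δ c → Y (g u) ≤ c := by
    intro u hu hmem
    rcases hmem with h | h
    · have : g u ∈ frontier K := by
        rw [hK.isClosed.frontier_eq]; exact ⟨h, hint u hu⟩
      rw [hfr _ this]; exact hc
    · exact h.2
  obtain ⟨m, hm, hmax⟩ := isCompact_Icc.exists_isMaxOn
    (⟨s, le_rfl, (hst.trans hrt).le⟩ : (Icc s r).Nonempty) hfc
  have ht₀c : c < Y (g t₀) := by
    by_contra hh
    push Not at hh
    exact hcon (Or.inr ⟨hmemN t₀ ⟨hst.le, hrt.le⟩, hh⟩)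
  have hmc : c < Y (g m) := ht₀c.trans_le (hmax ⟨hst.le, hrt.le⟩)
  have hms : s < m := by
    rcases eq_or_lt_of_le hm.1 with h | h
    · exfalso
      have := hle s ⟨le_rfl, (hst.trans hrt).le⟩ hs.2
      rw [h] at this
      linarith
    · exact h
  have hmr : m < r := by
    rcases eq_or_lt_of_le hm.2 with h | h
    · exfalso
      have := hle r ⟨(hst.trans hrt).le, le_rfl⟩ hr.2
      rw [← h] at this
      linarith
    · exact h
  have hloc : IsLocalMax (fun u => Y (g u)) m :=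
    hmax.isLocalMax (Icc_mem_nhds hms hmr)
  have hw0 : w ≠ 0 := by
    intro h0
    apply hcon
    have : g t₀ = g 0 := by simp [hg, h0]
    rw [this, hg0]; exact hx
  exact no_max V Y hV hY x w m (hN (hmemN m hm)) hloc
    (fun h => hp _ (hmemN m hm) w hw0 h)

theorem gx_CONV : S_CONV := by
  intro K V Y hK hKc hKi hV hfV hY hY0 hYpos hreg hhess
  have hY2 : ContDiffOn ℝ ∞ (fderiv ℝ Y) V := hY.fderiv_of_isOpen hV (by simp)
  have hc1 : ContinuousOn (fderiv ℝ Y) V := hY2.continuousOn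
  have hc2 : ContinuousOn (fderiv ℝ (fderiv ℝ Y)) V :=
    (hY2.fderiv_of_isOpen (m := ∞) hV (by simp)).continuousOn
  have hfK : frontier K = K \ interior K := hK.isClosed.frontier_eq
  -- the good open set
  set F : ℂ → ℝ := fun z => fderiv ℝ (fderiv ℝ Y) z (ker0 (fderiv ℝ Y z)) (ker0 (fderiv ℝ Y z))
    with hF
  have hk : ContinuousOn (fun z => ker0 (fderiv ℝ Y z)) V := by
    have h1 : ContinuousOn (fun z => fderiv ℝ Y z 1) V := hc1.clm_apply continuousOn_const
    have h2 : ContinuousOn (fun z => fderiv ℝ Y z Complex.I) V := hc1.clm_apply continuousOn_const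
    have h3 : (fun z => ker0 (fderiv ℝ Y z)) = fun z =>
        ((-(fderiv ℝ Y z Complex.I) : ℝ) : ℂ) + ((fderiv ℝ Y z 1 : ℝ) : ℂ) * Complex.I := by
      funext z; apply Complex.ext <;> simp [ker0]
    rw [h3]
    exact (Complex.continuous_ofReal.comp_continuousOn h2.neg).add
      ((Complex.continuous_ofReal.comp_continuousOn h1).mul continuousOn_const)
  have hFc : ContinuousOn F V := (hc2.clm_apply hk).clm_apply hk
  set W : Set ℂ := V ∩ F ⁻¹' (Ioi 0) with hW
  have hWo : IsOpen W := hFc.isOpen_inter_preimage hV isOpen_Ioi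
  have hfW : frontier K ⊆ W := by
    intro z hz
    refine ⟨hfV hz, ?_⟩
    exact hhess z hz _ (ker0_ne _ (hreg z hz)) (app_ker0 _)
  have hWp : ∀ z ∈ W, fderiv ℝ Y z ≠ 0 ∧ ∀ w : ℂ, w ≠ 0 → fderiv ℝ Y z w = 0 →
      0 < fderiv ℝ (fderiv ℝ Y) z w w := fun z hz => pos_of _ _ hz.2
  obtain ⟨δ, hδ, hδs⟩ := hK.exists_cthickening_subset_open (hWo.union isOpen_interior)
    (fun z hz => by
      by_cases h : z ∈ interior K
      · exact Or.inr h
      · exact Or.inl (hfW (by rw [hfK]; exact ⟨hz, h⟩)) : K ⊆ W ∪ interior K)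
  have hNW : cthickening δ K \ interior K ⊆ W := by
    intro z hz
    rcases hδs hz.1 with h | h
    · exact h
    · exact absurd h hz.2
  have hNV : cthickening δ K \ interior K ⊆ V := fun z hz => (hNW hz).1
  have hKT : K ⊆ thickening δ K := self_subset_thickening hδ K
  -- the value `c₀`
  have hScomp : IsCompact (cthickening δ K \ thickening δ K) := hK.cthickening.diff isOpen_thickening
  have hSV : ∀ z ∈ cthickening δ K \ thickening δ K, z ∈ V ∧ z ∉ K := by
    intro z hz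
    have h1 : z ∉ K := fun h => hz.2 (hKT h)
    exact ⟨hNV ⟨hz.1, fun h => h1 (interior_subset h)⟩, h1⟩
  obtain ⟨c₀, hc₀, hc₀S⟩ := hScomp.exists_forall_le' (f := Y) (a := 0)
    (hY.continuousOn.mono fun z hz => (hSV z hz).1) (fun z hz => hYpos z (hSV z hz).1 (hSV z hz).2)
  -- the neighbourhood
  set U : Set ℂ := (V ∩ (fderiv ℝ Y) ⁻¹' ({0}ᶜ)) ∩ (V ∩ Y ⁻¹' (Iio c₀)) ∩ thickening δ K with hU
  have hUo : IsOpen U := ((hc1.isOpen_inter_preimage hV isOpen_compl_singleton).inter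
    (hY.continuousOn.isOpen_inter_preimage hV isOpen_Iio)).inter isOpen_thickening
  have hUV : U ⊆ V := fun z hz => hz.1.1.1
  have hnn : ∀ z ∈ U, z ∉ interior K → 0 ≤ Y z := by
    intro z hz hzi
    by_cases h : z ∈ K
    · rw [hY0 z (by rw [hfK]; exact ⟨h, hzi⟩)]
    · exact (hYpos z (hUV hz) h).le
  have hfU : frontier K ⊆ U := by
    intro z hz
    have hzK : z ∈ K := by rw [hfK] at hz; exact hz.1
    refine ⟨⟨⟨hfV hz, hreg z hz⟩, ⟨hfV hz, ?_⟩⟩, hKT hzK⟩
    simp only [mem_preimage, mem_Iio]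
    rw [hY0 z hz]; exact hc₀
  have hleaf0 : leaf K U Y 0 = frontier K := by
    apply Subset.antisymm
    · rintro z ⟨hz, hzi, hz0⟩
      rw [hfK]
      refine ⟨?_, hzi⟩
      by_contra h
      exact absurd hz0 (hYpos z (hUV hz) h).ne'
    · intro z hz
      refine ⟨hfU hz, ?_, hY0 z hz⟩
      rw [hfK] at hz; exact hz.2
  refine ⟨U, hUV, ⟨hUo, hfU, hY.mono hUV, fun z hz => hz.1.1.2, hnn, hleaf0, ?_⟩⟩
  rintro c ⟨z₁, hz₁, hz₁i, hz₁c⟩
  have hc0 : 0 ≤ c := hz₁c ▸ hnn z₁ hz₁ hz₁i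
  have hcc : c < c₀ := by rw [← hz₁c]; exact hz₁.1.2.2
  rcases eq_or_lt_of_le hc0 with h0 | hcpos
  · rw [← h0]
    exact ⟨K, hK, hKc, hKi, hleaf0⟩
  -- positive index
  have hBc := bb_compact (c := c) hK hNV hY.continuousOn
  have hBconv := bb_convex (c := c) hK hKc hV hY hδ.le hc0 hY0 hNV
    (fun z hz => (hWp z (hNW hz)).2)
  have hKB : K ⊆ BB K Y δ c := subset_union_left
  refine ⟨BB K Y δ c, hBc, hBconv, hKi.mono (interior_mono hKB), ?_⟩
  -- an open subset
  have hA : IsOpen (interior K ∪ ((V ∩ Y ⁻¹' (Iio c)) ∩ thickening δ K)) :=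
    isOpen_interior.union ((hY.continuousOn.isOpen_inter_preimage hV isOpen_Iio).inter
      isOpen_thickening)
  have hAB : interior K ∪ ((V ∩ Y ⁻¹' (Iio c)) ∩ thickening δ K) ⊆ BB K Y δ c := by
    rintro z (hz | hz)
    · exact hKB (interior_subset hz)
    · by_cases h : z ∈ interior K
      · exact hKB (interior_subset h)
      · exact Or.inr ⟨⟨thickening_subset_cthickening _ _ hz.2, h⟩, le_of_lt hz.1.2⟩
  have hAi : interior K ∪ ((V ∩ Y ⁻¹' (Iio c)) ∩ thickening δ K) ⊆ interior (BB K Y δ c) :=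
    interior_maximal hAB hA
  rw [hBc.isClosed.frontier_eq]
  apply Subset.antisymm
  · rintro z ⟨hz, hzi, hzc⟩
    have hzT : z ∈ thickening δ K := hz.2
    refine ⟨Or.inr ⟨⟨thickening_subset_cthickening _ _ hzT, hzi⟩, hzc.le⟩, ?_⟩
    intro hint
    have hzK : z ∉ K := by
      intro h
      have := hY0 z (by rw [hfK]; exact ⟨h, hzi⟩)
      rw [hzc] at this
      exact absurd this hcpos.ne'
    have hmax : IsLocalMax Y z := by
      filter_upwards [isOpen_interior.mem_nhds hint, hK.isClosed.isOpen_compl.mem_nhds hzK]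
        with v hv1 hv2
      rcases interior_subset hv1 with h | h
      · exact absurd h hv2
      · rw [hzc]; exact h.2
    exact hz.1.1.2 hmax.fderiv_eq_zero
  · rintro z ⟨hzB, hznot⟩
    have hzA : z ∉ interior K ∪ ((V ∩ Y ⁻¹' (Iio c)) ∩ thickening δ K) := fun h => hznot (hAi h)
    have hzi : z ∉ interior K := fun h => hzA (Or.inl h)
    have hzK : z ∉ K := by
      intro h
      have hzf : z ∈ frontier K := by rw [hfK]; exact ⟨h, hzi⟩
      apply hzA
      refine Or.inr ⟨⟨hfV hzf, ?_⟩, hKT h⟩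
      simp only [mem_preimage, mem_Iio]
      rw [hY0 z hzf]; exact hcpos
    rcases hzB with h | h
    · exact absurd h hzK
    · have hzT : z ∈ thickening δ K := by
        by_contra hT
        have := hc₀S z ⟨h.1.1, hT⟩
        linarith [h.2]
      have hzV : z ∈ V := hNV h.1
      have hzc : Y z = c := by
        apply le_antisymm h.2
        by_contra hlt
        push Not at hlt
        exact hzA (Or.inr ⟨⟨hzV, hlt⟩, hzT⟩)
      refine ⟨⟨⟨⟨hzV, (hWp z (hNW h.1)).1⟩, ⟨hzV, ?_⟩⟩, hzT⟩, hzi, hzc⟩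
      simp only [mem_preimage, mem_Iio]
      rw [hzc]; exact hcc

end Pool.Agent.H164.GX.CONV
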